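import Mathlib

/-!
# An irreducible Coxeter group that is integrable

Let `W = V * V` be the free product of two Klein four-groups.  It is a Coxeter group of rank four
whose diagram is a square with all labels `∞`, hence connected.  The automorphism `φ` of order
three that permutes cyclically the three involutions of each factor gives a group
`H = W ⋊ ℤ` with derived subgroup `W`.
-/

namespace Pool.Agent.Results.MP_417677_al.IrreducibleIntegrable

open scoped commutatorElement

/-- The Coxeter diagram: `i` and `j` are joined when `i ≠ j` and `m i j ≥ 3` or `m i j = ∞`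
(which Mathlib encodes by `0`). -/
def diagram {B : Type*} (M : CoxeterMatrix B) : SimpleGraph B :=
  SimpleGraph.fromRel fun i j => 3 ≤ M i j ∨ M i j = 0

/-- `G` is integrable: it is isomorphic to the derived subgroup of a group. -/
def Integrable (G : Type) [Group G] : Prop :=
  ∃ (H : Type) (_ : Group H), Nonempty (commutator H ≃* G)

/-- The entries of the Coxeter matrix. -/
def mat : Matrix (Fin 4) (Fin 4) ℕ := !![1, 2, 0, 0; 2, 1, 0, 0; 0, 0, 1, 2; 0, 0, 2, 1]

/-- The Coxeter matrix of the free product of two Klein four-groups. -/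
def M : CoxeterMatrix (Fin 4) where
  M := mat
  isSymm := by decide
  diagonal := by decide
  off_diagonal := by
    intro i j
    fin_cases i <;> fin_cases j <;> simp [mat]

theorem M_M : M.M = mat := rfl

/-- The Coxeter system. -/
abbrev cs : CoxeterSystem M M.Group := M.toCoxeterSystem

/-- The images of the simple reflections under the automorphism of order three. -/
def f : Fin 4 → M.Group :=
  ![M.simple 1, M.simple 0 * M.simple 1, M.simple 3, M.simple 2 * M.simple 3]

theorem sq (i : Fin 4) : M.simple i * M.simple i = 1 := cs.simple_mul_simple_self i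

theorem c01 : M.simple 0 * M.simple 1 = M.simple 1 * M.simple 0 := by
  have h : (M.simple 0 * M.simple 1) ^ 2 = 1 := cs.simple_mul_simple_pow 0 1
  have h1 : M.simple 0 * (M.simple 0 * M.simple 1) ^ 2 * M.simple 1 =
      M.simple 1 * M.simple 0 := by
    calc M.simple 0 * (M.simple 0 * M.simple 1) ^ 2 * M.simple 1
        = (M.simple 0 * M.simple 0) * M.simple 1 * M.simple 0 * (M.simple 1 * M.simple 1) := by
          rw [pow_two]; simp only [mul_assoc]
      _ = M.simple 1 * M.simple 0 := by rw [sq, sq]; simp
  rw [h, mul_one] at h1
  exact h1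

theorem c23 : M.simple 2 * M.simple 3 = M.simple 3 * M.simple 2 := by
  have h : (M.simple 2 * M.simple 3) ^ 2 = 1 := cs.simple_mul_simple_pow 2 3
  have h1 : M.simple 2 * (M.simple 2 * M.simple 3) ^ 2 * M.simple 3 =
      M.simple 3 * M.simple 2 := by
    calc M.simple 2 * (M.simple 2 * M.simple 3) ^ 2 * M.simple 3
        = (M.simple 2 * M.simple 2) * M.simple 3 * M.simple 2 * (M.simple 3 * M.simple 3) := by
          rw [pow_two]; simp only [mul_assoc]
      _ = M.simple 3 * M.simple 2 := by rw [sq, sq]; simp
  rw [h, mul_one] at h1
  exact h1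

theorem f_liftable : M.IsLiftable f := by
  have h1 : M.simple 0 * M.simple 1 * (M.simple 0 * M.simple 1) = 1 := by
    have := cs.simple_mul_simple_pow 0 1
    rw [← pow_two]; exact this
  have h2 : M.simple 2 * M.simple 3 * (M.simple 2 * M.simple 3) = 1 := by
    have := cs.simple_mul_simple_pow 2 3
    rw [← pow_two]; exact this
  have h3 : M.simple 1 * (M.simple 0 * M.simple 1) = M.simple 0 := by
    rw [c01, ← mul_assoc, sq, one_mul]
  have h4 : M.simple 0 * M.simple 1 * M.simple 1 = M.simple 0 := by
    rw [mul_assoc, sq, mul_one]
  have h5 : M.simple 3 * (M.simple 2 * M.simple 3) = M.simple 2 := by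
    rw [c23, ← mul_assoc, sq, one_mul]
  have h6 : M.simple 2 * M.simple 3 * M.simple 3 = M.simple 2 := by
    rw [mul_assoc, sq, mul_one]
  intro i j
  rw [M_M]
  fin_cases i <;> fin_cases j <;> simp [f, mat, sq, h1, h2, h3, h4, h5, h6, pow_two]

/-- The endomorphism of `W`. -/
noncomputable def φ : M.Group →* M.Group := cs.lift ⟨f, f_liftable⟩

theorem φ_simple (i : Fin 4) : φ (M.simple i) = f i := cs.lift_apply_simple f_liftable i

theorem φ_cube (w : M.Group) : φ (φ (φ w)) = w := by
  have h : (φ.comp (φ.comp φ)) = MonoidHom.id M.Group := by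
    apply cs.ext_simple
    intro i
    have h0 : φ (M.simple 0) = M.simple 1 := φ_simple 0
    have h1 : φ (M.simple 1) = M.simple 0 * M.simple 1 := φ_simple 1
    have h2 : φ (M.simple 2) = M.simple 3 := φ_simple 2
    have h3 : φ (M.simple 3) = M.simple 2 * M.simple 3 := φ_simple 3
    have e1 : M.simple 1 * (M.simple 0 * M.simple 1) = M.simple 0 := by
      rw [c01, ← mul_assoc, sq, one_mul]
    have e2 : M.simple 3 * (M.simple 2 * M.simple 3) = M.simple 2 := by
      rw [c23, ← mul_assoc, sq, one_mul]
    change φ (φ (φ (M.simple i))) = M.simple i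
    fin_cases i
    · change φ (φ (φ (M.simple 0))) = M.simple 0
      rw [h0, h1, map_mul, h0, h1, e1]
    · change φ (φ (φ (M.simple 1))) = M.simple 1
      rw [h1, map_mul, h0, h1, e1, h0]
    · change φ (φ (φ (M.simple 2))) = M.simple 2
      rw [h2, h3, map_mul, h2, h3, e2]
    · change φ (φ (φ (M.simple 3))) = M.simple 3
      rw [h3, map_mul, h2, h3, e2, h2]
  exact DFunLike.congr_fun h w

/-- The automorphism of `W`. -/
noncomputable def Φ : MulAut M.Group where
  toFun := φ
  invFun w := φ (φ w)
  left_inv := φ_cube
  right_inv := φ_cube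
  map_mul' := map_mul φ

/-- The integral `W ⋊ ℤ` of `W`. -/
abbrev H : Type := M.Group ⋊[zpowersHom (MulAut M.Group) Φ] Multiplicative ℤ

theorem mem_comm (w : M.Group) :
    (SemidirectProduct.inl (φ w * w⁻¹) : H) ∈ commutator H := by
  have h : (SemidirectProduct.inl (φ w * w⁻¹) : H) =
      ⁅(SemidirectProduct.inr (Multiplicative.ofAdd 1) : H), SemidirectProduct.inl w⁆ := by
    rw [commutatorElement_def, ← map_inv SemidirectProduct.inr, ← SemidirectProduct.inl_aut,
      map_mul, map_inv]
    congr 2
  rw [h]
  exact Subgroup.commutator_mem_commutator (Subgroup.mem_top _) (Subgroup.mem_top _)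

theorem comm_eq : commutator H =
    (SemidirectProduct.inl : M.Group →* H).range := by
  apply le_antisymm
  · rw [SemidirectProduct.range_inl_eq_ker_rightHom]
    exact Abelianization.commutator_subset_ker _
  · have h0 : φ (M.simple 0) = M.simple 1 := φ_simple 0
    have h1 : φ (M.simple 1) = M.simple 0 * M.simple 1 := φ_simple 1
    have h2 : φ (M.simple 2) = M.simple 3 := φ_simple 2
    have h3 : φ (M.simple 3) = M.simple 2 * M.simple 3 := φ_simple 3
    have inv : ∀ i, (M.simple i)⁻¹ = M.simple i := fun i => cs.inv_simple i
    have m0 : (SemidirectProduct.inl (M.simple 0) : H) ∈ commutator H := by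
      have := mem_comm (M.simple 1)
      rwa [h1, inv, mul_assoc, sq, mul_one] at this
    have m1 : (SemidirectProduct.inl (M.simple 1) : H) ∈ commutator H := by
      have := mem_comm (M.simple 0)
      rw [h0, inv, map_mul] at this
      have h := mul_mem this m0
      rwa [mul_assoc, ← map_mul, sq, map_one, mul_one] at h
    have m2 : (SemidirectProduct.inl (M.simple 2) : H) ∈ commutator H := by
      have := mem_comm (M.simple 3)
      rwa [h3, inv, mul_assoc, sq, mul_one] at this
    have m3 : (SemidirectProduct.inl (M.simple 3) : H) ∈ commutator H := by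
      have := mem_comm (M.simple 2)
      rw [h2, inv, map_mul] at this
      have h := mul_mem this m2
      rwa [mul_assoc, ← map_mul, sq, map_one, mul_one] at h
    rw [MonoidHom.range_eq_map, ← cs.subgroup_closure_range_simple, Subgroup.map_le_iff_le_comap,
      Subgroup.closure_le]
    rintro _ ⟨i, rfl⟩
    change (SemidirectProduct.inl (M.simple i) : H) ∈ commutator H
    fin_cases i
    · exact m0
    · exact m1
    · exact m2
    · exact m3

theorem integrable : Integrable M.Group :=
  ⟨H, inferInstance, ⟨(MulEquiv.subgroupCongr comm_eq).trans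
    (MonoidHom.ofInjective SemidirectProduct.inl_injective).symm⟩⟩

theorem connected : (diagram M).Connected := by
  have adj : ∀ i j : Fin 4, i ≠ j → (3 ≤ M i j ∨ M i j = 0) → (diagram M).Adj i j := by
    intro i j h h'
    exact (SimpleGraph.fromRel_adj _ i j).2 ⟨h, Or.inl h'⟩
  have a02 := adj 0 2 (by decide) (by decide)
  have a03 := adj 0 3 (by decide) (by decide)
  have a12 := adj 1 2 (by decide) (by decide)
  have r : ∀ i : Fin 4, (diagram M).Reachable 0 i := by
    intro i
    fin_cases i
    · exact SimpleGraph.Reachable.refl _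
    · exact a02.reachable.trans a12.symm.reachable
    · exact a02.reachable
    · exact a03.reachable
  exact { preconnected := fun i j => (r i).symm.trans (r j), nonempty := ⟨0⟩ }

/-- the sign-type homomorphism that sends the simple reflection `i` to `-1` and the others
to `1` -/
noncomputable def χ (i : Fin 4) : M.Group →* ℤˣ :=
  cs.lift ⟨fun j => if j = i then -1 else 1, by
    intro j k
    rw [M_M]
    fin_cases i <;> fin_cases j <;> fin_cases k <;> simp [mat]⟩

theorem χ_simple (i j : Fin 4) : χ i (M.simple j) = if j = i then -1 else 1 :=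
  cs.lift_apply_simple _ j

theorem not_C2 : IsEmpty (M.Group ≃* Multiplicative (ZMod 2)) := by
  constructor
  intro e
  have h01 : M.simple 0 ≠ M.simple 1 := by
    intro h
    have := congrArg (χ 0) h
    rw [χ_simple, χ_simple] at this
    simp at this
  have h0 : M.simple 0 ≠ 1 := by
    intro h
    have := congrArg (χ 0) h
    rw [χ_simple, map_one] at this
    simp at this
  have h1 : M.simple 1 ≠ 1 := by
    intro h
    have := congrArg (χ 1) h
    rw [χ_simple, map_one] at this
    simp at this
  have g0 : e (M.simple 0) ≠ 1 := fun h => h0 (e.injective (h.trans (map_one e).symm))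
  have g1 : e (M.simple 1) ≠ 1 := fun h => h1 (e.injective (h.trans (map_one e).symm))
  have key : ∀ x y : Multiplicative (ZMod 2), x ≠ 1 → y ≠ 1 → x = y := by decide
  exact h01 (e.injective (key _ _ g0 g1))

/-- There are a Coxeter group `W` (of rank four) with connected Coxeter diagram, not isomorphic
to the cyclic group of order two, and a group `H` with derived subgroup isomorphic to `W`. -/
theorem result : ∃ M : CoxeterMatrix (Fin 4), (diagram M).Connected ∧
    IsEmpty (M.Group ≃* Multiplicative (ZMod 2)) ∧ Integrable M.Group :=
  ⟨M, connected, not_C2, integrable⟩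

end Pool.Agent.Results.MP_417677_al.IrreducibleIntegrable
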